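import Pool.Agent.Q188.Bike.Main

/-!
# MP_b4625f_gt, Q1: closed rear bicycle tracks over convex front tracks have rotation number one

`Γ` is a simple, strictly convex closed front track (of class `C^2`, unit speed, period `L`,
counterclockwise: `Q188.Bike.ConvexTrack`), `ℓ > 0` any length and `θ` any solution of the bicycle
equation (`Q188.Bike.Rides`) which closes up after one period, `θ L - θ 0 = 2 π ρ`.  Then `ρ = 1`.
The type of the monodromy plays no role in the statement: a hyperbolic or parabolic monodromy has
fixed points, each of them gives such a solution, and all such solutions are covered.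

Idea.  Let `α` be the tangent angle of `Γ` and `ψ = θ - α`; then `ψ' = sin ψ / ℓ - κ` crosses the
multiples of `π` only downwards.  This gives `ρ ≤ 1`, and `ρ ≥ 0` by counting crossings.  If `ρ = 0`
then `θ` is periodic and there are `t₁ < t₂ < t₁ + L` with parallel tangents and the same
`θ = θ₀`; with `a = α (t₁)` the periodic function
`crs (ev θ₀) Γ + ℓ sin (θ₀ - a) log tan ((θ - a) / 2)` has the derivative
`sin (α - a) sin (θ - θ₀) / sin (θ - a) ≥ 0`, a contradiction.
-/

set_option autoImplicit false

namespace Pool.Agent.Results.MP_b4625f_gt.RotationNumberOne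

open Pool.Agent.Y508 Q188.Bike

/-- **Every closed rear track over a simple strictly convex closed front track has rotation
number `1`.** -/
theorem result (Γ : ℝ → EuclideanSpace ℝ (Fin 2)) (L : ℝ) (hΓ : ConvexTrack Γ L) (ℓ : ℝ)
    (hℓ : 0 < ℓ) (θ : ℝ → ℝ) (hθ : Rides Γ ℓ θ) (ρ : ℤ)
    (hρ : θ L - θ 0 = 2 * Real.pi * ρ) : ρ = 1 :=
  rotation_one hΓ hℓ hθ hρ

end Pool.Agent.Results.MP_b4625f_gt.RotationNumberOne
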